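import Mathlib
import Pool.Agent.R43.WCSSearch

/-!
Weakly consecutive sequences: for every weakly consecutive sequence `σ` of length `k` and every
positive integer `m < k / 2`, the value `m` occurs among the first `m` or among the last `m`
entries of `σ`. This answers Q1 of MP_a4c3d5_co affirmatively.
-/

namespace Pool.Agent.Results.MP_a4c3d5_co.SmallTermPositions

/-- `σ` restricts to a permutation of `{1,...,k}` which is a weakly consecutive sequence of
length `k`: whenever `m ∣ σ i` and `m ∣ i - j`, also `m ∣ σ j`. -/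
def IsWCS (k : ℕ) (σ : ℕ → ℕ) : Prop :=
  Set.BijOn σ (Set.Icc 1 k) (Set.Icc 1 k) ∧
  ∀ i ∈ Set.Icc 1 k, ∀ j ∈ Set.Icc 1 k, ∀ m : ℕ, 0 < m →
    m ∣ σ i → (m : ℤ) ∣ (i : ℤ) - (j : ℤ) → m ∣ σ j

/-- Every value `m < k / 2` of a weakly consecutive sequence of length `k` stands among its first
`m` or among its last `m` entries. -/
theorem result (k : ℕ) (σ : ℕ → ℕ) (h : IsWCS k σ) (m : ℕ) (hm : 0 < m) (hmk : 2 * m < k)
    (i : ℕ) (hi : i ∈ Set.Icc 1 k) (hσ : σ i = m) :
    i ∈ Set.Icc 1 m ∪ Set.Icc (k - m + 1) k := by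
  have h' : R43WCS.IsWCS k σ := h
  rw [Set.mem_Icc] at hi
  rcases R43WCS.main h' hm hi.1 hi.2 hσ with h1 | h1
  · exact Or.inl (Set.mem_Icc.2 ⟨hi.1, h1⟩)
  · exact Or.inr (Set.mem_Icc.2 ⟨h1, hi.2⟩)

end Pool.Agent.Results.MP_a4c3d5_co.SmallTermPositions
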